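import Pool.Agent.LibGPR.Defs

/-! [GPR B3] The coding condition from club guessing. (50 lines.)

PROOF. Colour: `c δ l = j` if there is `j'` with `e δ j' = l`, `j < j'` and `j' ≤ i` for all `i > j`
(`j'` is the successor of `j`); otherwise arbitrary. (For a strictly increasing `e δ` such `j` is
unique: `j'` is unique by injectivity, and `j` is the largest element below `j'`.)
Given `C` unbounded and `s` with `s β > β`: `hG s` gives `δ` with `Lad (e δ) δ` and values in `Cl s`.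
Given `β₀ < δ` and `a₀`: choose `k` with `β₀ < e δ k`, `j ∈ C` with `j > max k a₀`; `β = e δ j`, `j'`
the least element of `K` above `j` (`exists_gt'`, `wellFounded_lt.has_min`), `i = j'`.
`s β ≤ e δ j'` since `e δ j' ∈ Cl s` and `β < e δ j'`; if `s β ≤ e δ i'` then `e δ j < e δ i'`, so
`j < i'`, `j' ≤ i'`. `c δ (e δ j') = j ∈ C`, `a₀ < j`. -/

set_option autoImplicit false

namespace Pool.Agent.LibGPR

open Cardinal Set
open Pool.Agent.LibGP76

universe u

variable {K L : Type u} [LinearOrder K] [LinearOrder L] [WellFoundedLT K] [WellFoundedLT L]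

theorem cod_guess (h : RegK K) (e : L → K → L)
    (hG : ∀ E : L → L, ∃ δ, Lad (e δ) δ ∧ ∀ i, e δ i ∈ Cl E) :
    ∃ c : L → L → K, ∀ C : Set K, Ub C → Cod univ e c C := by
  classical
  have hK : Nonempty K := by
    rw [← mk_ne_zero_iff]
    exact (aleph0_pos.trans h.unc).ne'
  let k₀ : K := Classical.arbitrary K
  let c : L → L → K := fun δ l =>
    if hh : ∃ j : K, ∃ j' : K, e δ j' = l ∧ j < j' ∧ ∀ i, j < i → j' ≤ i then hh.choose else k₀
  refine ⟨c, fun C hC s hs => ?_⟩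
  obtain ⟨δ, hL, hcl⟩ := hG s
  have hinj : ∀ i j, e δ i < e δ j → i < j := by
    intro i j hij
    by_contra hcon
    rw [not_lt] at hcon
    rcases hcon.lt_or_eq with h1 | h1
    · exact lt_asymm hij (hL.1 _ _ h1)
    · rw [h1] at hij
      exact lt_irrefl _ hij
  have hmono : ∀ i j, i ≤ j → e δ i ≤ e δ j := by
    intro i j hij
    rcases hij.lt_or_eq with h1 | h1
    · exact (hL.1 _ _ h1).le
    · rw [h1]
  have hc : ∀ j j' : K, j < j' → (∀ i, j < i → j' ≤ i) → c δ (e δ j') = j := by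
    intro j j' h1 h2
    have hh : ∃ j₁ : K, ∃ j₂ : K, e δ j₂ = e δ j' ∧ j₁ < j₂ ∧ ∀ i, j₁ < i → j₂ ≤ i :=
      ⟨j, j', rfl, h1, h2⟩
    have hc1 : c δ (e δ j') = hh.choose := dif_pos hh
    rw [hc1]
    obtain ⟨j₂, h3, h4, h5⟩ := hh.choose_spec
    have h6 : j₂ = j' := by
      rcases lt_trichotomy j₂ j' with h7 | h7 | h7
      · exact absurd h3 (hL.1 _ _ h7).ne
      · exact h7
      · exact absurd h3 (hL.1 _ _ h7).ne'
    rw [h6] at h4 h5
    refine le_antisymm ?_ ?_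
    · by_contra hcon
      rw [not_le] at hcon
      exact absurd (h2 _ hcon) (not_le.2 h4)
    · by_contra hcon
      rw [not_le] at hcon
      exact absurd (h5 _ hcon) (not_le.2 h1)
  refine ⟨δ, mem_univ _, ⟨e δ, hL⟩, fun β₀ hβ₀ a₀ => ?_⟩
  obtain ⟨k, hk⟩ := hL.2.2 β₀ hβ₀
  obtain ⟨j, hjC, hj⟩ := hC (max k a₀)
  obtain ⟨hj1, hj2⟩ := max_lt_iff.1 hj
  obtain ⟨j₁, hj₁⟩ := exists_gt' h j
  obtain ⟨j', hj', hmin⟩ := wellFounded_lt.has_min {x : K | j < x} ⟨j₁, hj₁⟩
  have hmin' : ∀ i, j < i → j' ≤ i := fun i hi => not_lt.1 (hmin i hi)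
  have hlt : e δ j < e δ j' := hL.1 _ _ hj'
  refine ⟨e δ j, j', (hk.trans (hL.1 _ _ hj1)).le, hL.2.1 j, (hcl j' (e δ j) hlt).le, hL.2.1 j',
    fun i' hi' => hmono _ _ (hmin' i' (hinj _ _ ((hs (e δ j)).trans_le hi'))), ?_, ?_⟩
  · rw [hc j j' hj' hmin']
    exact hjC
  · rw [hc j j' hj' hmin']
    exact hj2

end Pool.Agent.LibGPR
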