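import Pool.Agent.LibGPR.Defs

/-! [GPR C4] The coding condition from the pigeonhole lemma. (40 lines.)

PROOF. Given `s` with `β < s β`, apply the hypothesis to `E = s`: `δ ∈ D`, `δ ∈ Cl s`. Given
`β₀ < δ`, `a₀`: `a ∈ C`, `a₀ < a`, and `γ` with `β₀ < γ < δ`, `col γ = a`, `γ ∈ Cl s`,
`Reach stp n δ γ`, i.e. `η < γ` and the walk from `δ` to each `l ∈ (η, γ)` is at `γ` after `n` steps.
`β = max β₀ η < γ`; `β < s β < γ` as `γ ∈ Cl s`. `e δ i = s β` for some `i` (`s β < γ < δ`);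
`c δ l = col ((fun x => stp x l)^[n] δ)`, so `c δ (s β) = col γ = a`. -/

set_option autoImplicit false

namespace Pool.Agent.LibGPR

open Cardinal Set
open Pool.Agent.LibGP76

universe u

variable {K L : Type u} [LinearOrder K] [LinearOrder L] [WellFoundedLT K] [WellFoundedLT L]

theorem cod_walk (stp : L → L → L) (col : L → K) (D : Set L)
    (hD' : ∀ δ ∈ D, ∃ σ : K → L, Lad σ δ) (C : Set K) (n : ℕ)
    (hN : ∀ E : L → L, ∃ δ ∈ D, δ ∈ Cl E ∧ ∀ a₀ : K, ∃ a ∈ C, a₀ < a ∧ ∀ β₀ < δ, ∃ γ,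
      β₀ < γ ∧ γ < δ ∧ (∃ σ : K → L, Lad σ γ) ∧ col γ = a ∧ γ ∈ Cl E ∧ Reach stp n δ γ)
    (e : L → K → L) (he : ∀ δ, ∀ l < δ, ∃ i, e δ i = l) :
    Cod D e (fun δ l => col ((fun x => stp x l)^[n] δ)) C := by
  intro s hs
  obtain ⟨δ, hδD, hδs, hδ⟩ := hN s
  refine ⟨δ, hδD, hD' δ hδD, fun β₀ hβ₀ a₀ => ?_⟩
  obtain ⟨a, haC, haa, ha⟩ := hδ a₀
  obtain ⟨γ, h1, h2, -, h3, h4, η, h5, h6⟩ := ha β₀ hβ₀
  have hβ : max β₀ η < γ := max_lt h1 h5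
  have hsβ : s (max β₀ η) < γ := h4 _ hβ
  obtain ⟨i, hi⟩ := he δ (s (max β₀ η)) (hsβ.trans h2)
  have hcol : col ((fun x => stp x (e δ i))^[n] δ) = a := by
    rw [hi, h6 _ (lt_of_le_of_lt (le_max_right β₀ η) (hs _)) hsβ]
    exact h3
  refine ⟨max β₀ η, i, le_max_left _ _, hβ.trans h2, ?_, ?_, ?_, ?_, ?_⟩
  · rw [hi]
  · rw [hi]
    exact hsβ.trans h2
  · intro i' hi'
    rw [hi]
    exact hi'
  · show col ((fun x => stp x (e δ i))^[n] δ) ∈ C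
    rw [hcol]
    exact haC
  · show a₀ < col ((fun x => stp x (e δ i))^[n] δ)
    rw [hcol]
    exact haa

end Pool.Agent.LibGPR
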