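import Mathlib

/-! [GPR D1] A counting lemma. (60 lines.)

PROOF. Case 1: `#{j | N k j = m} = #J` for some `k`, `m`: `n k = m`, `n k' = 0` otherwise,
`f j = (k, E j)` with `E : J ≃ {j | N k j = m}`. Case 2: `J` countable: if `J` is empty anything works;
otherwise fix `j₀ : J`, an injection `ι : J → ℕ`, `n k = N k j₀`, `f j = (ι j, j₀)`. Case 3: `J` is
uncountable and all `#{j | N k j = m} < #J`. Let `c k = #{j | N 0 j = k} < #J`. For every `k` there is
`m = n k` with `c k ≤ #{j | N k j = m}`: otherwise `J = ⋃ m, {j | N k j = m}` has cardinality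
`≤ ℵ₀ * c k < #J` (`Cardinal.mk_iUnion_le`, `Cardinal.mul_lt_of_lt`, `ℵ₀ < #J`, `c k < #J`). Choose
injections `φ k : {j | N 0 j = k} → {j | N k j = n k}` and put `f j = (N 0 j, φ (N 0 j) ⟨j, rfl⟩)`. -/

set_option autoImplicit false

namespace Pool.Agent.LibGPR

open Cardinal Set

universe u

theorem count_pieces (J : Type u) (N : ℕ → J → ℕ) :
    ∃ (n : ℕ → ℕ) (f : J → ℕ × J), Function.Injective f ∧ ∀ j, N (f j).1 (f j).2 = n (f j).1 := by
  classical
  by_cases h1 : ∃ k m, #{j : J | N k j = m} = #J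
  · obtain ⟨k, m, hkm⟩ := h1
    obtain ⟨E⟩ := Cardinal.eq.1 hkm.symm
    refine ⟨fun _ => m, fun j => (k, (E j : J)), ?_, ?_⟩
    · intro i j hij
      have h2 : (E i : J) = (E j : J) := (Prod.ext_iff.1 hij).2
      exact E.injective (Subtype.ext h2)
    · intro j
      exact (E j).2
  push Not at h1
  rcases le_or_gt (#J) ℵ₀ with h2 | h2
  · have hJ : Countable J := mk_le_aleph0_iff.1 h2
    rcases isEmpty_or_nonempty J with h3 | ⟨⟨j₀⟩⟩
    · exact ⟨fun _ => 0, fun j => (0, j), fun i => (h3.false i).elim, fun j => (h3.false j).elim⟩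
    · obtain ⟨ι, hι⟩ := hJ.exists_injective_nat
      refine ⟨fun k => N k j₀, fun j => (ι j, j₀), ?_, fun j => rfl⟩
      intro i j hij
      exact hι (Prod.ext_iff.1 hij).1
  · have hlt : ∀ k m, #{j : J | N k j = m} < #J := fun k m =>
      lt_of_le_of_ne (mk_set_le _) (h1 k m)
    have hex : ∀ k, ∃ m, #{j : J | N 0 j = k} ≤ #{j : J | N k j = m} := by
      intro k
      by_contra hcon
      push Not at hcon
      have hU : (⋃ m : ULift.{u} ℕ, {j : J | N k j = m.down}) = Set.univ := by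
        ext j
        refine ⟨fun _ => mem_univ _, fun _ => mem_iUnion.2 ?_⟩
        exact ⟨⟨N k j⟩, rfl⟩
      have h3 : #J ≤ ℵ₀ * #{j : J | N 0 j = k} := by
        have h4 := mk_iUnion_le (fun m : ULift.{u} ℕ => {j : J | N k j = m.down})
        rw [hU, mk_univ] at h4
        refine h4.trans ?_
        have h5 : #(ULift.{u} ℕ) = ℵ₀ := by simp
        rw [h5]
        refine mul_le_mul' le_rfl ?_
        exact ciSup_le' fun m => (hcon m.down).le
      exact absurd (mul_lt_of_lt h2.le h2 (hlt 0 k)) (not_lt.2 h3)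
    choose n hn using hex
    have hφ : ∀ k, ∃ φ : {j : J | N 0 j = k} → {j : J | N k j = n k}, Function.Injective φ := by
      intro k
      obtain ⟨φ⟩ := Cardinal.le_def _ _ |>.1 (hn k)
      exact ⟨φ, φ.injective⟩
    choose φ hφ using hφ
    refine ⟨n, fun j => (N 0 j, (φ (N 0 j) ⟨j, rfl⟩ : J)), ?_, ?_⟩
    · intro i j hij
      have h3 : N 0 i = N 0 j := (Prod.ext_iff.1 hij).1
      have h4 : (φ (N 0 i) ⟨i, rfl⟩ : J) = (φ (N 0 j) ⟨j, rfl⟩ : J) := (Prod.ext_iff.1 hij).2
      have h5 : ∀ (k : ℕ) (hi : N 0 i = k) (hj : N 0 j = k),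
          (φ k ⟨i, hi⟩ : J) = (φ k ⟨j, hj⟩ : J) → i = j := by
        intro k hi hj h6
        have h7 := hφ k (Subtype.ext h6)
        exact congrArg Subtype.val h7
      refine h5 (N 0 j) h3 rfl ?_
      have h8 : ∀ (k : ℕ) (hk : N 0 i = k), (φ (N 0 i) ⟨i, rfl⟩ : J) = (φ k ⟨i, hk⟩ : J) := by
        intro k hk
        subst hk
        rfl
      rw [← h8 _ h3]
      exact h4
    · intro j
      exact (φ (N 0 j) ⟨j, rfl⟩).2

end Pool.Agent.LibGPR
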