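import Pool.Agent.LibGPR.Defs

/-! [GPR A2] Density of the classes. (120 lines; the model is `dens_n` in `LibGP76/NCase.lean`.)

PROOF. As in `dens_n` choose for `β : L`, `z : K` a point `w β z ∈ X` with `z < fl b (w β z)` and
`fl b (w β z) ∈ Cl (g β)`. Put `ψ β z = fl b (w β z)`. By `hu.esc hg (ψ β)` there is a least
`l = s β` (well-founded minimum in `L`) with `Stat {z | ψ β z < g l z}`. As `ψ β z ∈ Cl (g β)` and
`z < ψ β z` we have `g β z < ψ β z` for all `z`, so by `hg.inc` and `Stat.ub` no `l ≤ β` has this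
property: `β < s β`. By minimality: (min) for `l' < s β` the set `{z | ψ β z < g l' z}` is not
stationary, so by `not_stat` there are `bb β l' : K → K`, `ηη β l' : K` such that every
`z ∈ Cl (bb β l')` with `ηη β l' < z` has `g l' z ≤ ψ β z`.
Apply `hC s`: `δ ∈ D`, a ladder `σ` of `δ`. For `j : K` apply the last clause to `β₀ = σ j`,
`a₀ = j`: `β j`, `i j` with `σ j ≤ β j < δ`, `s (β j) ≤ l j < δ`, `l j := e δ (i j)` and, for all `i'`,
`s (β j) ≤ e δ i' → l j ≤ e δ i'`; `c δ (l j) ∈ C`, `j < c δ (l j)`.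
For every `j` the set of the `z` with
 (1) `ψ (β j) z < g (l j) z` is stationary (`hg.inc` from `s (β j)` to `l j`, `Stat.tail`),
 (2) for all `i' < z` with `e δ i' < l j` (so `e δ i' < s (β j)`): `g (e δ i') z ≤ ψ (β j) z`:
     diagonal intersection: this holds for all `z ∈ Cl (BB j)`, where
     `BB j y = ` a bound (`exists_sup_Iic`) of `max (bb (β j) (e δ i') y') (ηη (β j) (e δ i'))`
     over `i' ≤ y`, `y' ≤ y` (two nested applications of `exists_sup_Iic`; see the proof of `fodor` in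
     `LibGP76/Fodor.lean` for exactly this); use `Stat.inter_cl`,
 (3) `i j < z`, (4) `g (l j) z ≤ g δ z` (`hg.inc`, tail), (5) `z ∈ Cl (g δ)` (`Stat.inter_cl`),
 (6) `z` above the thresholds `τ j` such that for all `i' < j`: `Cl (g (β j))` above `τ j` is contained
     in `Cl (g (σ i'))` (`cl_almost` if `σ i' < β j`; true as `σ i' < σ j ≤ β j`)
is stationary, so `exists_seq` gives `z j` with `j < z j` and `w (β i) (z i) < z j` for `i < j`.
Put `x j = w (β j) (z j)`, `B = range x`. As in `dens_n`: `fl (g δ) (fl b (x j)) = z j` (there is no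
`c ∈ Cl (g δ)` with `z j < c ≤ fl b (x j)` because `fl b (x j) < g (l j) (z j) ≤ g δ (z j) < c`), and
`Esc g e δ (fl b (x j)) (l j)` by (1), (2), (3). The rest is as in `dens_n` (use `σ` where `dens_n`
uses the cofinal sequence `β`). -/

set_option autoImplicit false

namespace Pool.Agent.LibGPR

open Cardinal Set
open Pool.Agent.LibGP76

universe u

variable {K L : Type u} [LinearOrder K] [LinearOrder L] [WellFoundedLT K] [WellFoundedLT L]

theorem dens_w (h : RegK K) (p : Ultrafilter K) (hp : ∀ X ∈ p, Ub X) (b : K → K)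
    (hb : ∀ b' : K → K, {x | fl b x ∈ Cl b'} ∈ p) {g : L → K → K} (hg : Sc g) (hu : Pos g univ)
    (D : Set L) (e : L → K → L) (c : L → L → K) (C : Set K) (hC : Cod D e c C) (X : Set K)
    (hX : X ∈ p) : ∃ B, B ⊆ X ∧ ClsW b g D e c C B := by
  classical
  haveI := nonempty_of_regK h
  -- the points
  have hw : ∀ (β : L) (z : K), ∃ w, w ∈ X ∧ z < fl b w ∧ fl b w ∈ Cl (g β) := by
    intro β z
    obtain ⟨η, hη⟩ := fl_ub h b z
    obtain ⟨w, hw⟩ := p.nonempty_of_mem (Filter.inter_mem hX (Filter.inter_mem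
      (ult_tail p hp η) (hb (g β))))
    exact ⟨w, hw.1, hη w hw.2.1, hw.2.2⟩
  choose w hw1 hw2 hw3 using hw
  -- the escape levels
  have hs : ∀ β : L, ∃ l, Stat {z | fl b (w β z) < g l z} ∧
      ∀ l' < l, ¬ Stat {z | fl b (w β z) < g l' z} := by
    intro β
    obtain ⟨l₀, hl₀⟩ := hu.esc hg (fun z => fl b (w β z))
    have hne : ({l : L | Stat {z | fl b (w β z) < g l z}}).Nonempty :=
      ⟨l₀, (hl₀ l₀ le_rfl).mono fun z hz => hz.2⟩
    obtain ⟨l, hl, hmin⟩ := wellFounded_lt.has_min _ hne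
    exact ⟨l, hl, fun l' hl' hst => hmin l' hst hl'⟩
  choose s hs1 hs2 using hs
  have hβs : ∀ β, β < s β := by
    intro β
    by_contra hcon
    rw [not_lt] at hcon
    have hle : Les (g (s β)) (g β) := by
      rcases hcon.lt_or_eq with h1 | h1
      · exact hg.inc _ _ h1
      · rw [h1]
        exact Les.refl _
    obtain ⟨η, hη⟩ := hle
    obtain ⟨z, hz, hηz⟩ := (hs1 β).ub η
    have h2 : fl b (w β z) < g β z := lt_of_lt_of_le hz (hη z hηz)
    exact lt_asymm h2 (hw3 β z z (hw2 β z))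
  -- minimality
  have hmin : ∀ β l', ∃ (bb : K → K) (ηη : K), l' < s β → ∀ z, ηη < z → z ∈ Cl bb →
      g l' z ≤ fl b (w β z) := by
    intro β l'
    by_cases hl' : l' < s β
    · obtain ⟨bb, ηη, hbb⟩ := not_stat (hs2 β l' hl')
      refine ⟨bb, ηη, fun _ z hz hzb => ?_⟩
      by_contra hcon
      exact hbb z (not_le.1 hcon) hz hzb
    · exact ⟨id, Classical.arbitrary K, fun h' => absurd h' hl'⟩
  choose bb ηη hbb using hmin
  -- the coding condition
  obtain ⟨δ, hδD, ⟨σ, hσ1, hσ2, hσ3⟩, hcod⟩ := hC s hβs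
  choose β i hβ1 hβ2 hβ3 hβ4 hβ5 hβ6 hβ7 using fun j : K => hcod (σ j) (hσ2 j) j
  -- diagonal intersections
  choose B1 hB1 using fun (j i' y : K) => exists_sup_Iic h y (bb (β j) (e δ i'))
  choose BB hBB using fun (j y : K) =>
    exists_sup_Iic h y (fun i' => max (B1 j i' y) (ηη (β j) (e δ i')))
  have h2 : ∀ j z, z ∈ Cl (BB j) → ∀ i' < z, e δ i' < s (β j) →
      g (e δ i') z ≤ fl b (w (β j) z) := by
    intro j z hz i' hi' hlt
    refine hbb (β j) (e δ i') hlt z ?_ ?_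
    · exact ((le_max_right _ _).trans_lt (hBB j i' i' le_rfl)).trans (hz i' hi')
    · intro y hy
      have hm : max i' y < z := max_lt hi' hy
      have k1 := hB1 j i' (max i' y) y (le_max_right _ _)
      have k2 := hBB j (max i' y) i' (le_max_left _ _)
      exact (k1.trans ((le_max_left _ _).trans_lt k2)).trans (hz _ hm)
  -- thresholds
  have hth : ∀ i' j, ∃ η, i' < j → ∀ c, η < c → c ∈ Cl (g (β j)) → c ∈ Cl (g (σ i')) := by
    intro i' j
    by_cases hij : i' < j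
    · obtain ⟨η, hη⟩ := cl_almost hg ((hσ1 i' j hij).trans_le (hβ1 j))
      exact ⟨η, fun _ => hη⟩
    · exact ⟨Classical.arbitrary K, fun h => absurd h hij⟩
  choose θ hθ using hth
  choose τ hτ using fun j => exists_sup_Iio h j (fun i' => θ i' j)
  have hle1 : ∀ j, Les (g (s (β j))) (g (e δ (i j))) := by
    intro j
    rcases (hβ3 j).lt_or_eq with h1 | h1
    · exact hg.inc _ _ h1
    · rw [h1]
      exact Les.refl _
  choose θ1 hθ1 using hle1
  choose θ2 hθ2 using fun j => hg.inc _ _ (hβ4 j)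
  -- the recursion
  obtain ⟨z, hzΦ, hzj, hzM⟩ := exists_seq h
    (fun j z => (fl b (w (β j) z) < g (e δ (i j)) z) ∧
      (∀ i' < z, e δ i' < s (β j) → g (e δ i') z ≤ fl b (w (β j) z)) ∧ i j < z ∧
      g (e δ (i j)) z ≤ g δ z ∧ z ∈ Cl (g δ) ∧ τ j < z) id
    (fun i' z => w (β i') z) (by
      intro j y
      obtain ⟨z, ⟨⟨hz1, hz2⟩, hz3⟩, hz4⟩ := (((hs1 (β j)).inter_cl (BB j)).inter_cl (g δ)).ub
        (max (max y (τ j)) (max (i j) (max (θ1 j) (θ2 j))))
      have k1 : max y (τ j) < z := lt_of_le_of_lt (le_max_left _ _) hz4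
      have k2 : max (i j) (max (θ1 j) (θ2 j)) < z := lt_of_le_of_lt (le_max_right _ _) hz4
      have k3 : max (θ1 j) (θ2 j) < z := lt_of_le_of_lt (le_max_right _ _) k2
      exact ⟨z, lt_of_le_of_lt (le_max_left _ _) k1,
        lt_of_lt_of_le hz1 (hθ1 j z (lt_of_le_of_lt (le_max_left _ _) k3)),
        h2 j z hz2, lt_of_le_of_lt (le_max_left _ _) k2,
        hθ2 j z (lt_of_le_of_lt (le_max_right _ _) k3), hz3,
        lt_of_le_of_lt (le_max_right _ _) k1⟩)
  simp only [id] at hzj hzM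
  let x : K → K := fun j => w (β j) (z j)
  have hzf : ∀ j, z j < fl b (x j) := fun j => hw2 _ _
  have hfx : ∀ j, fl b (x j) ≤ x j := fun j => fl_le _ _
  have hzx : ∀ j, z j < x j := fun j => (hzf j).trans_le (hfx j)
  have hxmono : ∀ i j, i < j → x i < x j := fun i j hij => (hzM i j hij).trans (hzx j)
  have hxlt : ∀ i j, x i < x j → i < j := by
    intro i j hij
    by_contra hcon
    rcases lt_or_eq_of_le (not_lt.1 hcon) with h1 | h1
    · exact lt_asymm hij (hxmono _ _ h1)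
    · rw [h1] at hij
      exact lt_irrefl _ hij
  have hidx : ∀ (P : K → Prop) (j₀ : K), (∀ j, j₀ < j → P (x j)) →
      ∃ η, ∀ y ∈ range x, η < y → P y := by
    intro P j₀ hP
    refine ⟨x j₀, ?_⟩
    rintro _ ⟨j, rfl⟩ hj
    exact hP j (hxlt _ _ hj)
  have hgap1 : ∀ j, fl b (x j) < g (e δ (i j)) (z j) := fun j => (hzΦ j).1
  have hescm : ∀ j, ∀ i' < z j, e δ i' < s (β j) → g (e δ i') (z j) ≤ fl b (x j) :=
    fun j => (hzΦ j).2.1
  have hiz : ∀ j, i j < z j := fun j => (hzΦ j).2.2.1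
  have hgap : ∀ j, fl b (x j) < g δ (z j) := fun j => (hgap1 j).trans_le (hzΦ j).2.2.2.1
  have hzcl : ∀ j, z j ∈ Cl (g δ) := fun j => (hzΦ j).2.2.2.2.1
  have hzτ : ∀ j, τ j < z j := fun j => (hzΦ j).2.2.2.2.2
  have hno : ∀ j, ∀ c ∈ Cl (g δ), z j < c → ¬ c ≤ fl b (x j) := by
    intro j c hc hzc hcx
    exact lt_irrefl _ ((hc _ hzc).trans_le (hcx.trans (hgap j).le))
  have hflz : ∀ j, fl (g δ) (fl b (x j)) = z j := fun j => fl_eq (hzcl j) (hzf j).le (hno j)
  have hesc : ∀ j, Esc g e δ (fl b (x j)) (e δ (i j)) := by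
    intro j
    unfold Esc
    rw [hflz]
    refine ⟨⟨i j, hiz j, rfl, hgap1 j⟩, fun i' hi' hlt => ?_⟩
    refine hβ5 j i' ?_
    by_contra hcon
    exact absurd hlt (not_lt.2 (hescm j i' hi' (not_le.1 hcon)))
  refine ⟨range x, ?_, ?_, δ, hδD, ?_, ?_, ?_, ?_⟩
  · rintro _ ⟨j, rfl⟩
    exact hw1 _ _
  · intro η
    exact ⟨x η, ⟨η, rfl⟩, (hzj η).trans (hzx η)⟩
  · refine hidx (fun y => fl b y ∉ Cl (g δ)) (Classical.arbitrary K) ?_
    intro j _ hj
    exact hno j _ hj (hzf j) le_rfl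
  · intro ν hν
    obtain ⟨i', hi'⟩ := hσ3 ν hν
    obtain ⟨η, hη⟩ := cl_almost hg hi'
    refine hidx (fun y => fl b y ∈ Cl (g ν)) (max i' η) ?_
    intro j hj
    have hij : i' < j := lt_of_le_of_lt (le_max_left _ _) hj
    have hηj : η < j := lt_of_le_of_lt (le_max_right _ _) hj
    refine hη _ ((hηj.trans (hzj j)).trans (hzf j)) ?_
    exact hθ i' j hij _ (((hτ j i' hij).trans (hzτ j)).trans (hzf j)) (hw3 _ _)
  · refine hidx (fun y => ∃ l, Esc g e δ (fl b y) l ∧ c δ l ∈ C) (Classical.arbitrary K) ?_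
    intro j _
    exact ⟨_, hesc j, hβ6 j⟩
  · intro ζ
    refine hidx (fun y => ∃ l, Esc g e δ (fl b y) l ∧ ζ < c δ l) ζ ?_
    intro j hj
    exact ⟨_, hesc j, hj.trans (hβ7 j)⟩

end Pool.Agent.LibGPR
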