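import Pool.Agent.LibGPR.Thin
import Pool.Agent.LibGP76.WM

/-! [GPR B2] Club guessing (Shelah). (120 lines.)

`K`, `L` regular uncountable well-orders with `(#K)⁺ < #L`. There are `e δ : K → L` (`δ : L`) such
that for every `E : L → L` there is `δ` such that `e δ` is a ladder of `δ` with values in `Cl E`.

PROOF. Suppose not: (H) for every `e : L → K → L` there is `N e : L → L` such that for no `δ`:
`Lad (e δ) δ ∧ ∀ i, e δ i ∈ Cl (N e)`. Choose `lad : L → K → L` with `Lad (lad δ) δ` whenever `δ` has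
a ladder. For `F : L → L` choose (by `thin`) `G F : L → K → L` such that, whenever `Lad (lad δ) δ`
and `δ` is a limit of points of `Cl F` (`∀ ν < δ, ∃ c ∈ Cl F, ν < c ∧ c < δ`),
`Lad (G F δ) δ ∧ ∀ j, ∃ i, G F δ j = fl F (lad δ i)` (here `f i = fl F (lad δ i)` is monotone,
`f i ≤ lad δ i < δ`, and cofinal: for `ν < c < δ`, `c ∈ Cl F`, choose `i` with `c < lad δ i`, then
`ν < c ≤ fl F (lad δ i)`).
Let `M = (succ #K).ord.ToType`; it satisfies `RegK M` (see `regK_ord` in `LibGP76/WM.lean`), and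
`#M = succ #K`. By `wellFounded_lt.fix` on `M` define `Φ : M → L → L` with
`∀ i < j, ∀ x, max (Φ i x) (N (G (Φ i)) x) ≤ Φ j x` (pointwise bounds exist by `exists_sup hL`, as
`#(Iio j) < #M < #L`; the same recursion is in `LibGP76/Dich.lean`), and `Φ∞ : L → L` above all
`Φ i`, `i : M` (`exists_sup hL`, `#M < #L`). Take `δ` with a ladder in `Cl Φ∞` (`exists_lad`); then
`δ` is a limit of points of `Cl (Φ i)` for every `i` (`Cl_anti`), and `Lad (lad δ) δ`.
For `ξ : L` the map `i ↦ fl (Φ i) ξ` is nonincreasing (`fl_anti`); let `m ξ : M` be an index where it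
takes its least value. Let `i : M` be above all `m (lad δ j)`, `j : K` (`exists_sup` for `RegK M`,
`#K < #M`), and `i' > i` (`exists_gt'`). Then
`fl (Φ i) (lad δ j) = fl (Φ i') (lad δ j) ∈ Cl (Φ i') ⊆ Cl (N (G (Φ i)))` for all `j : K`.
So `G (Φ i) δ` is a ladder with values in `Cl (N (G (Φ i)))`, contradicting (H) for `e = G (Φ i)`. -/

set_option autoImplicit false

namespace Pool.Agent.LibGPR

open Cardinal Set Order
open Pool.Agent.LibGP76

universe u

variable {K L : Type u} [LinearOrder K] [LinearOrder L] [WellFoundedLT K] [WellFoundedLT L]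

theorem club_guess (h : RegK K) (hL : RegK L) (hKL : succ #K < #L) :
    ∃ e : L → K → L, ∀ E : L → L, ∃ δ, Lad (e δ) δ ∧ ∀ i, e δ i ∈ Cl E := by
  classical
  by_contra hcon
  push Not at hcon
  choose N hN using hcon
  have hKL' : #K < #L := (lt_succ #K).trans hKL
  -- a ladder for every `δ` which has one
  have hlad : ∀ δ : L, ∃ σ : K → L, (∃ σ' : K → L, Lad σ' δ) → Lad σ δ := by
    intro δ
    by_cases hδ : ∃ σ' : K → L, Lad σ' δ
    · obtain ⟨σ, hσ⟩ := hδ
      exact ⟨σ, fun _ => hσ⟩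
    · exact ⟨fun _ => δ, fun h => absurd h hδ⟩
  choose lad hlad using hlad
  have hG : ∀ (F : L → L) (δ : L), ∃ e : K → L, Lad (lad δ) δ →
      (∀ ν < δ, ∃ c ∈ Cl F, ν < c ∧ c < δ) → Lad e δ ∧ ∀ j, ∃ i, e j = fl F (lad δ i) := by
    intro F δ
    by_cases h1 : Lad (lad δ) δ ∧ ∀ ν < δ, ∃ c ∈ Cl F, ν < c ∧ c < δ
    · obtain ⟨h1, h2⟩ := h1
      obtain ⟨e, he1, he2⟩ := thin h (fun i => fl F (lad δ i)) δ
        (by
          intro i j hij
          rcases hij.lt_or_eq with hij | rfl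
          · exact le_fl (fl_mem F _) ((fl_le F _).trans (h1.1 i j hij).le)
          · exact le_refl _)
        (fun i => (fl_le F _).trans_lt (h1.2.1 i))
        (by
          intro ν hν
          obtain ⟨c, hc1, hc2, hc3⟩ := h2 ν hν
          obtain ⟨i, hi⟩ := h1.2.2 c hc3
          exact ⟨i, hc2.trans_le (le_fl hc1 hi.le)⟩)
      exact ⟨e, fun _ _ => ⟨he1, he2⟩⟩
    · exact ⟨fun _ => δ, fun h2 h3 => absurd ⟨h2, h3⟩ h1⟩
  choose G hG using hG
  -- the index set of the recursion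
  have hreg : (succ #K).IsRegular := isRegular_succ h.unc.le
  have hM : RegK (succ #K).ord.ToType := regK_ord hreg (h.unc.trans (lt_succ #K))
  have hMc : #(succ #K).ord.ToType = succ #K := mk_ord_toType _
  obtain ⟨M, hMlin, hMwf, hM, hMc⟩ : ∃ (M : Type u) (_ : LinearOrder M) (_ : WellFoundedLT M),
      RegK M ∧ #M = succ #K := ⟨_, inferInstance, inferInstance, hM, hMc⟩
  have hML : #M < #L := by rw [hMc]; exact hKL
  have hKM : #K < #M := by rw [hMc]; exact lt_succ #K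
  have hsup : ∀ (j : M) (f : (i : M) → i < j → (L → L)), ∃ B : L → L, ∀ i (hi : i < j) x,
      f i hi x ≤ B x := by
    intro j f
    choose B hB using fun x : L => exists_sup hL ((hM.small j).trans hML)
      (fun i : Set.Iio j => f i.1 i.2 x)
    exact ⟨B, fun i hi x => (hB x ⟨i, hi⟩).le⟩
  choose sp hsp using hsup
  let Φ : M → L → L := wellFounded_lt.fix (fun j rec => sp j (fun i hi =>
    fun x => max (rec i hi x) (N (G (rec i hi)) x)))
  have hΦ : ∀ j, Φ j = sp j (fun i _ => fun x => max (Φ i x) (N (G (Φ i)) x)) :=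
    fun j => wellFounded_lt.fix_eq _ j
  have hΦle : ∀ i j, i < j → ∀ x, max (Φ i x) (N (G (Φ i)) x) ≤ Φ j x := by
    intro i j hij x
    rw [hΦ j]
    exact hsp j (fun i _ => fun x => max (Φ i x) (N (G (Φ i)) x)) i hij x
  have hΦmono : ∀ i j, i ≤ j → ∀ x, Φ i x ≤ Φ j x := by
    intro i j hij x
    rcases hij.lt_or_eq with hij | rfl
    · exact (le_max_left _ _).trans (hΦle i j hij x)
    · exact le_refl _
  choose Ψ hΨ using fun x : L => exists_sup hL hML (fun i : M => Φ i x)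
  have hLne : Nonempty L := by
    rw [← mk_ne_zero_iff]
    exact (lt_of_le_of_lt bot_le hKL').ne'
  obtain ⟨η⟩ := hLne
  obtain ⟨σ, δ, hσ1, hσ2, -, -⟩ := exists_lad h hL hKL' Ψ η
  have hlim : ∀ i : M, ∀ ν < δ, ∃ c ∈ Cl (Φ i), ν < c ∧ c < δ := by
    intro i ν hν
    obtain ⟨j, hj⟩ := hσ1.2.2 ν hν
    exact ⟨σ j, Cl_anti (fun x => (hΨ x i).le) (hσ2 j), hj, hσ1.2.1 j⟩
  have hLad : Lad (lad δ) δ := hlad δ ⟨σ, hσ1⟩
  have hMne : Nonempty M := by
    rw [← mk_ne_zero_iff]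
    exact (lt_of_le_of_lt bot_le hKM).ne'
  have hmin : ∀ ξ : L, ∃ m : M, ∀ i : M, fl (Φ m) ξ ≤ fl (Φ i) ξ := by
    intro ξ
    obtain ⟨y, ⟨m, rfl⟩, hy⟩ := (wellFounded_lt (α := L)).has_min
      (range fun i : M => fl (Φ i) ξ) (range_nonempty _)
    exact ⟨m, fun i => not_lt.1 (hy _ ⟨i, rfl⟩)⟩
  choose mm hmm using hmin
  obtain ⟨i, hi⟩ := exists_sup hM hKM (fun j : K => mm (lad δ j))
  obtain ⟨i', hi'⟩ := exists_gt' hM i
  obtain ⟨hG1, hG2⟩ := hG (Φ i) δ hLad (hlim i)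
  obtain ⟨j, hj⟩ := hN (G (Φ i)) δ hG1
  obtain ⟨k, hk⟩ := hG2 j
  rw [hk] at hj
  apply hj
  have heq : fl (Φ i) (lad δ k) = fl (Φ i') (lad δ k) := by
    apply le_antisymm
    · exact (fl_anti (hΦmono _ _ (hi k).le) _).trans (hmm (lad δ k) i')
    · exact fl_anti (hΦmono _ _ hi'.le) _
  rw [heq]
  exact Cl_anti (fun x => (le_max_right _ _).trans (hΦle i i' hi' x)) (fl_mem (Φ i') _)

end Pool.Agent.LibGPR
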