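import Pool.Agent.LibGPR.Defs

/-! [GPR C3] The pigeonhole lemma. (80 lines.)

PROOF. Otherwise for every `n` there is `E n : L → L` such that for no `δ ∈ D ∩ Cl (E n)` the condition
holds. Let `E : L → L` be above all `E n` pointwise (`exists_sup_nat hL`); `Cl E ⊆ Cl (E n)`
(`Cl_anti`). For `a : K` and `ν : L` choose `γ a ν ∈ Cl E` with `ν < γ a ν`, `col (γ a ν) = a` and
`γ a ν` has a ladder (`hcol a E ν`). Let `E' ν` be above `E ν` and all `γ a ν`, `a : K`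
(`exists_sup hL hKL`). `hD E' η` (any `η`) gives `δ ∈ D ∩ Cl E'`, so for all `a : K` and `ν < δ`:
`ν < γ a ν < δ`. As `D` consists of levels with a ladder `σ : K → L` of `δ`, and every countable subset
of `K` is bounded: for every `a` there is `n a` such that for all `β₀ < δ` there is `ν` with
`β₀ ≤ ν < δ` and `Reach stp (n a) δ (γ a ν)` (otherwise choose for every `n` some `β n < δ` such that
this fails for all `ν ≥ β n`; `σ j` above all `β n`, `n : ℕ`, for a suitable `j : K`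
(`exists_sup_nat h`); `ν = σ j`; by `hW (γ a ν)` there is `n` with `Reach stp n δ (γ a ν)`).
Then there is `n` such that `{a ∈ C | n a = n}` is unbounded in `K` (otherwise bounds `a n` for all
`n`, `exists_sup_nat h` gives `a'` above all of them, and `C` has an element above `a'`).
So `δ` satisfies the condition for this `n` and `E n`: contradiction. -/

set_option autoImplicit false

namespace Pool.Agent.LibGPR

open Cardinal Set
open Pool.Agent.LibGP76

universe u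

variable {K L : Type u} [LinearOrder K] [LinearOrder L] [WellFoundedLT K] [WellFoundedLT L]

theorem lemN (h : RegK K) (hL : RegK L) (hKL : #K < #L) (stp : L → L → L)
    (hW : ∀ γ, (∃ σ : K → L, Lad σ γ) → ∀ δ, γ < δ → ∃ n, Reach stp n δ γ)
    (col : L → K) (hcol : ∀ a : K, Stat {x : L | col x = a ∧ ∃ σ : K → L, Lad σ x})
    (D : Set L) (hD : Stat D) (hD' : ∀ δ ∈ D, ∃ σ : K → L, Lad σ δ) (C : Set K) (hC : Ub C) :
    ∃ n : ℕ, ∀ E : L → L, ∃ δ ∈ D, δ ∈ Cl E ∧ ∀ a₀ : K, ∃ a ∈ C, a₀ < a ∧ ∀ β₀ < δ, ∃ γ,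
      β₀ < γ ∧ γ < δ ∧ (∃ σ : K → L, Lad σ γ) ∧ col γ = a ∧ γ ∈ Cl E ∧ Reach stp n δ γ := by
  classical
  by_contra hcon
  push Not at hcon
  choose E hE using hcon
  choose Einf hEinf using fun x : L => exists_sup_nat hL (fun n => E n x)
  choose γ hγ1 hγ2 hγ3 using fun (a : K) (ν : L) => hcol a Einf ν
  choose c hc using fun ν : L => exists_sup hL hKL (fun a => γ a ν)
  obtain ⟨η⟩ := nonempty_of_regK hL
  obtain ⟨δ, hδD, -, hδcl⟩ := hD (fun ν => max (c ν) (Einf ν)) η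
  obtain ⟨σ, hσ1, hσ2, hσ3⟩ := hD' δ hδD
  have hγδ : ∀ a, ∀ ν < δ, γ a ν < δ := fun a ν hν =>
    ((hc ν a).trans_le (le_max_left _ _)).trans (hδcl ν hν)
  have hδE : ∀ n, δ ∈ Cl (E n) := fun n =>
    Cl_anti (fun x => (hEinf x n).le.trans (le_max_right _ _)) hδcl
  have hγE : ∀ n a ν, γ a ν ∈ Cl (E n) := fun n a ν =>
    Cl_anti (fun x => (hEinf x n).le) (hγ3 a ν)
  -- the number of steps
  have h1 : ∀ a, ∃ n, ∀ β₀ < δ, ∃ ν, β₀ ≤ ν ∧ ν < δ ∧ Reach stp n δ (γ a ν) := by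
    intro a
    by_contra hcon
    push Not at hcon
    choose β hβ1 hβ2 using hcon
    choose j hj using fun n => hσ3 (β n) (hβ1 n)
    obtain ⟨J, hJ⟩ := exists_sup_nat h j
    obtain ⟨n, hn⟩ := hW (γ a (σ J)) (hγ1 a (σ J)).2 δ (hγδ a _ (hσ2 J))
    exact hβ2 n (σ J) ((hj n).trans (hσ1 _ _ (hJ n))).le (hσ2 J) hn
  choose n hn using h1
  have h2 : ∃ N, Ub {a | a ∈ C ∧ n a = N} := by
    by_contra hcon
    push Not at hcon
    unfold Ub at hcon
    push Not at hcon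
    choose b hb using hcon
    obtain ⟨a', ha'⟩ := exists_sup_nat h b
    obtain ⟨a, haC, haa⟩ := hC a'
    exact absurd ((ha' (n a)).trans haa) (not_lt.2 (hb (n a) a ⟨haC, rfl⟩))
  obtain ⟨N, hN⟩ := h2
  obtain ⟨a₀, ha₀⟩ := hE N δ hδD (hδE N)
  obtain ⟨a, ⟨haC, haN⟩, haa⟩ := hN a₀
  obtain ⟨β₀, hβ₀, hβ⟩ := ha₀ a haC haa
  obtain ⟨ν, hν1, hν2, hν3⟩ := hn a β₀ hβ₀
  rw [haN] at hν3
  exact hβ (γ a ν) (lt_of_le_of_lt hν1 (hγ2 a ν)) (hγδ a ν hν2) (hγ1 a ν).2 (hγ1 a ν).1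
    (hγE N a ν) hν3

end Pool.Agent.LibGPR
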