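import Pool.Agent.LibGP76.Scale

/-! [GPR D2] The scale has regular length. (COPY the proof of `LibGP76.exists_scale`
(`LibGP76/Scale.lean`) and add the two facts.)

`#L = #I > #K` (`hKI` in that proof). `RegK L` for `L = (#I).ord.ToType`: `unc`: `h.unc.trans hKI`
(`Cardinal.mk_ord_toType`); `small`: `Cardinal.mk_Iio_toType_ord_lt`; `reg`: let `S : Set L` with
`#S < #I` and no strict upper bound; by `hImin S (fun s => g s)` there is a bound `k` of all `g s`,
`s ∈ S`; as in the proof of `bd` it bounds all `φ i`: contradiction with `hφ k`. -/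

set_option autoImplicit false

namespace Pool.Agent.LibGPR

open Cardinal Set
open Pool.Agent.LibGP76

universe u

variable {K : Type u} [LinearOrder K] [WellFoundedLT K]

theorem exists_scale_reg (h : RegK K) : ∃ (L : Type u) (_ : LinearOrder L) (_ : WellFoundedLT L)
    (g : L → K → K), Sc g ∧ Pos g univ ∧ RegK L ∧ #K < #L := by
  classical
  obtain ⟨I, f₀, hf₀, hImin⟩ := exists_min h
  choose f hf1 hf2 hf3 using fun i : I => exists_maj h (f₀ i)
  have hf : ¬ ∃ k, ∀ i, Les (f i) k := by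
    rintro ⟨k, hk⟩
    apply hf₀
    refine ⟨k, fun i => ?_⟩
    obtain ⟨η, hη⟩ := hk i
    exact ⟨η, fun x hx => (hf3 i x).trans (hη x hx)⟩
  -- the cardinality of `I`
  have hKI : #K < #I := by
    by_contra hcon
    rw [not_lt] at hcon
    obtain ⟨⟨e, he⟩⟩ := (Cardinal.le_def I K).1 hcon
    have hex : ∀ y : K, ∃ F : K → K, ∀ i, e i = y → F = f i := by
      intro y
      by_cases hy : ∃ i, e i = y
      · obtain ⟨i, hi⟩ := hy
        refine ⟨f i, fun j hj => ?_⟩
        rw [he (hi.trans hj.symm)]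
      · exact ⟨id, fun i hi => absurd ⟨i, hi⟩ hy⟩
    choose F hF using hex
    obtain ⟨k, hk⟩ := bdd_seq h F
    exact hf ⟨k, fun i => by
      rw [← hF (e i) i rfl]
      exact hk (e i)⟩
  have hI0 : ℵ₀ ≤ #I := (h.unc.trans hKI).le
  -- Cummings-Shelah
  have hφ : ∃ φ : I → K → K, ∀ ψ : K → K, ∃ i, Stat {x | ψ x < φ i x} := by
    by_contra hcon
    push Not at hcon
    exact hf (cs h f (fun i x y hxy => hf1 i x y hxy) hcon)
  obtain ⟨φ, hφ⟩ := hφ
  obtain ⟨E⟩ : Nonempty ((#I).ord.ToType ≃ I) := by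
    rw [← Cardinal.eq]
    exact mk_ord_toType _
  have hseg : ∀ ν : (#I).ord.ToType, #(Set.Iio ν) < #I := fun ν => by
    have := Cardinal.mk_Iio_toType_ord_lt ν
    exact this
  have hstep : ∀ (ν : (#I).ord.ToType) (G : ∀ μ, μ < ν → K → K), ∃ m : K → K,
      (∀ x y, x ≤ y → m x ≤ m y) ∧ (∀ x, x < m x) ∧ Les (φ (E ν)) m ∧
      ∀ μ (hμ : μ < ν), Les (G μ hμ) m := by
    intro ν G
    have hJ : #(Option (Set.Iio ν)) < #I := by
      rw [mk_option]
      exact add_lt_of_lt hI0 (hseg ν) (one_lt_aleph0.trans_le hI0)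
    obtain ⟨k, hk⟩ := hImin (Option (Set.Iio ν))
      (fun o => Option.casesOn o (φ (E ν)) (fun μ => G μ.1 μ.2)) hJ
    obtain ⟨m, hm1, hm2, hm3⟩ := exists_maj h k
    refine ⟨m, hm1, hm2, ?_, ?_⟩
    · obtain ⟨η, hη⟩ := hk none
      exact ⟨η, fun x hx => (hη x hx).trans (hm3 x)⟩
    · intro μ hμ
      obtain ⟨η, hη⟩ := hk (some ⟨μ, hμ⟩)
      exact ⟨η, fun x hx => (hη x hx).trans (hm3 x)⟩
  choose M hM1 hM2 hM3 hM4 using hstep
  let g : (#I).ord.ToType → K → K := (wellFounded_lt (α := (#I).ord.ToType)).fix M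
  have hg : ∀ ν, g ν = M ν (fun μ _ => g μ) := fun ν => WellFounded.fix_eq _ _ _
  have hg1 : ∀ ν x y, x ≤ y → g ν x ≤ g ν y := fun ν => by
    rw [hg]
    exact hM1 _ _
  have hg2 : ∀ ν x, x < g ν x := fun ν => by
    rw [hg]
    exact hM2 _ _
  have hg3 : ∀ ν, Les (φ (E ν)) (g ν) := fun ν => by
    rw [hg]
    exact hM3 _ _
  have hg4 : ∀ μ ν, μ < ν → Les (g μ) (g ν) := fun μ ν hμν => by
    rw [hg ν]
    exact hM4 ν (fun μ _ => g μ) μ hμν
  have hne : Nonempty K := nonempty_of_regK h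
  refine ⟨(#I).ord.ToType, inferInstance, inferInstance, g, ⟨hg1, hg2, hg4, ?_⟩, ?_, ?_, ?_⟩
  · intro D
    by_contra hcon
    push Not at hcon
    obtain ⟨k, hk⟩ := bdd_seq h (fun j => g (D j))
    obtain ⟨i, hi⟩ := hφ k
    obtain ⟨j, hj⟩ := hcon (E.symm i)
    have h1 : Les (g (E.symm i)) k := by
      rcases hj.lt_or_eq with hlt | heq
      · exact (hg4 _ _ hlt).trans (hk j)
      · rw [heq]
        exact hk j
    have h2 : Les (φ i) k := by
      have := (hg3 (E.symm i)).trans h1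
      rwa [Equiv.apply_symm_apply] at this
    obtain ⟨η, hη⟩ := h2
    obtain ⟨x, hx, hηx⟩ := hi.ub η
    exact absurd hx (not_lt.2 (hη x hηx))
  · intro ψ
    obtain ⟨i, hi⟩ := hφ ψ
    refine ⟨E.symm i, ?_⟩
    have h2 := hg3 (E.symm i)
    rw [Equiv.apply_symm_apply] at h2
    obtain ⟨η, hη⟩ := h2
    refine (hi.tail η).mono ?_
    rintro x ⟨hx, hηx⟩
    exact ⟨mem_univ x, lt_of_lt_of_le hx (hη x hηx)⟩
  · refine ⟨?_, ?_, ?_⟩
    · rw [mk_ord_toType]
      exact h.unc.trans hKI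
    · intro c
      rw [mk_ord_toType]
      exact hseg c
    · intro S hS
      rw [mk_ord_toType] at hS
      by_contra hcon
      push Not at hcon
      obtain ⟨k, hk⟩ := hImin S (fun s => g s) hS
      obtain ⟨i, hi⟩ := hφ k
      obtain ⟨s, hs, hj⟩ := hcon (E.symm i)
      have h1 : Les (g (E.symm i)) k := by
        rcases hj.lt_or_eq with hlt | heq
        · exact (hg4 _ _ hlt).trans (hk ⟨s, hs⟩)
        · rw [heq]
          exact hk ⟨s, hs⟩
      have h2 : Les (φ i) k := by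
        have := (hg3 (E.symm i)).trans h1
        rwa [Equiv.apply_symm_apply] at this
      obtain ⟨η, hη⟩ := h2
      obtain ⟨x, hx, hηx⟩ := hi.ub η
      exact absurd hx (not_lt.2 (hη x hηx))
  · rw [mk_ord_toType]
    exact hKI

end Pool.Agent.LibGPR
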