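import Pool.Agent.LibGPR.Thin
import Pool.Agent.LibGP76.Ladder

/-! [GPR C2] Splitting the levels of cofinality `K`. (50 lines.)

PROOF. Let `S = {δ : L | ∃ σ : K → L, Lad σ δ}`, stationary by `stat_cof`, and
`P T = Stat {x | x ∈ T ∧ x ∈ S}`. `Posit P`: `ne`, `mono`, `tail` are trivial, `press` from `fodor`
(`LibGP76/Fodor.lean`, applied to `hL`). Choose `lad : L → K → L` with `Lad (lad δ) δ` for `δ ∈ S`;
`ladder_split hL (hP) (S := S) hS (ι := K) hKL (fun i x => lad x i)` gives `col : L → L` with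
`P {x | col x = a}` for all `a : L`. Compose with a surjection `ψ : L → T` (exists if `T` is nonempty
and `#T ≤ #L`). -/

set_option autoImplicit false

namespace Pool.Agent.LibGPR

open Cardinal Set
open Pool.Agent.LibGP76

universe u

variable {K L : Type u} [LinearOrder K] [LinearOrder L] [WellFoundedLT K] [WellFoundedLT L]

theorem split_cof (h : RegK K) (hL : RegK L) (hKL : #K < #L) (T : Type u) [Nonempty T]
    (hT : #T ≤ #L) :
    ∃ col : L → T, ∀ a : T, Stat {x : L | col x = a ∧ ∃ σ : K → L, Lad σ x} := by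
  classical
  set S : Set L := {δ : L | ∃ σ : K → L, Lad σ δ} with hSdef
  have hS : Stat S := stat_cof h hL hKL
  have hP : Posit (fun T : Set L => Stat {x | x ∈ T ∧ x ∈ S}) := by
    haveI := nonempty_of_regK hL
    refine ⟨?_, ?_, ?_, ?_⟩
    · intro A hA
      obtain ⟨x, hx⟩ := hA.nonempty
      exact ⟨x, hx.1⟩
    · intro A B hAB hA
      exact hA.mono fun x hx => ⟨hAB hx.1, hx.2⟩
    · intro A η hA
      refine (hA.tail η).mono ?_
      rintro x ⟨⟨hx1, hx2⟩, hx3⟩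
      exact ⟨⟨hx1, hx3⟩, hx2⟩
    · intro A f hA hf
      obtain ⟨ζ, hζ⟩ := fodor hL hA f (fun x hx => hf x hx.1)
      refine ⟨ζ, hζ.mono ?_⟩
      rintro x ⟨⟨hx1, hx2⟩, hx3⟩
      exact ⟨⟨hx1, hx3⟩, hx2⟩
  have hex : ∀ x : L, ∃ e : K → L, x ∈ S → Lad e x := by
    intro x
    by_cases hx : x ∈ S
    · obtain ⟨σ, hσ⟩ := hx
      exact ⟨σ, fun _ => hσ⟩
    · exact ⟨fun _ => x, fun h' => absurd h' hx⟩
  choose lad hlad using hex
  obtain ⟨col, hcol⟩ := ladder_split hL hP (S := S) (hS.mono fun x hx => ⟨hx, hx⟩) (ι := K) hKL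
    (fun i x => lad x i) (fun x hx i => (hlad x hx).2.1 i) (fun x hx y hy => (hlad x hx).2.2 y hy)
  obtain ⟨⟨e, he⟩⟩ := (Cardinal.le_def T L).1 hT
  let ψ : L → T := Function.invFun e
  have hψ : ∀ a, ψ (e a) = a := fun a => Function.leftInverse_invFun he a
  refine ⟨fun x => ψ (col x), fun a => ?_⟩
  refine (hcol (e a)).mono ?_
  rintro x ⟨hx1, hx2⟩
  refine ⟨?_, hx2⟩
  show ψ (col x) = a
  rw [show col x = e a from hx1, hψ]

end Pool.Agent.LibGPR
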