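import Pool.Agent.LibGPR.Defs

/-! [GPR C1] Walks in `L`, `#L = (#K)⁺`. (90 lines.) -/

set_option autoImplicit false

namespace Pool.Agent.LibGPR

open Cardinal Set Order
open Pool.Agent.LibGP76

universe u

variable {K L : Type u} [LinearOrder K] [LinearOrder L] [WellFoundedLT K] [WellFoundedLT L]

/-- Enumerations. Proof: `#(Iio δ) < #L = succ #K`, so `#(Iio δ) ≤ #K`. (If `Iio δ` is empty take
any constant function.) -/
theorem exists_enum (h : RegK K) (hL : RegK L) (hKL : #L = succ #K) :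
    ∃ e : L → K → L, ∀ δ, ∀ l < δ, ∃ i, e δ i = l := by
  classical
  have h1 : ∀ δ : L, ∃ f : K → L, ∀ l < δ, ∃ i, f i = l := by
    intro δ
    have h2 : #(Set.Iio δ) ≤ #K := by
      have := hL.small δ
      rw [hKL] at this
      exact Order.lt_succ_iff.1 this
    obtain ⟨φ⟩ := (Cardinal.le_def _ _).1 h2
    refine ⟨fun i => if hi : ∃ l : Set.Iio δ, φ l = i then (hi.choose : L) else δ, ?_⟩
    intro l hl
    refine ⟨φ ⟨l, hl⟩, ?_⟩
    have hi : ∃ l' : Set.Iio δ, φ l' = φ ⟨l, hl⟩ := ⟨_, rfl⟩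
    have h3 : hi.choose = ⟨l, hl⟩ := φ.injective hi.choose_spec
    show (if hi : ∃ l' : Set.Iio δ, φ l' = φ ⟨l, hl⟩ then (hi.choose : L) else δ) = l
    rw [dif_pos hi, h3]
  choose e he using h1
  exact ⟨e, he⟩

/-- A cofinal set with small initial segments. PROOF: `f = e δ` from `exists_enum`. Let `Cs` be the
set of the record values: `Cs = {c | c < δ ∧ ∃ i, f i = c ∧ ∀ i' < i, f i' < δ → f i' < c}`.
Cofinal: for `γ < δ` let `i` be the least index with `γ ≤ f i` and `f i < δ` (exists since `γ = f i`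
for some `i`); `f i` is a record. Small: for `γ < δ` with the same least index `i₁`, a record `f i < γ`
has `i < i₁` (if `i₁ < i` then `f i₁ < f i`, so `γ ≤ f i₁ < f i`; `i = i₁` is impossible), so there are
at most `#(Iio i₁) < #K` of them (`h.small`). -/
theorem exists_cs (h : RegK K) (hL : RegK L) (hKL : #L = succ #K) (δ : L) :
    ∃ Cs : Set L, (∀ c ∈ Cs, c < δ) ∧ (∀ γ < δ, ∃ c ∈ Cs, γ ≤ c) ∧
      ∀ γ < δ, #(Cs ∩ Iio γ : Set L) < #K := by
  classical
  obtain ⟨e, he⟩ := exists_enum h hL hKL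
  have hmin : ∀ γ < δ, ∃ i, γ ≤ e δ i ∧ e δ i < δ ∧ ∀ i' < i, e δ i' < δ → e δ i' < γ := by
    intro γ hγ
    have hne : ({i : K | γ ≤ e δ i ∧ e δ i < δ} : Set K).Nonempty := by
      obtain ⟨i, hi⟩ := he δ γ hγ
      exact ⟨i, hi.symm.le, hi.symm ▸ hγ⟩
    obtain ⟨i, hi, hm⟩ := wellFounded_lt.has_min _ hne
    refine ⟨i, hi.1, hi.2, fun i' hi' hlt => ?_⟩
    by_contra hcon
    exact hm i' ⟨not_lt.1 hcon, hlt⟩ hi'
  refine ⟨{c | c < δ ∧ ∃ i, e δ i = c ∧ ∀ i' < i, e δ i' < δ → e δ i' < c},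
    fun c hc => hc.1, ?_, ?_⟩
  · intro γ hγ
    obtain ⟨i, h1, h2, h3⟩ := hmin γ hγ
    exact ⟨e δ i, ⟨h2, i, rfl, fun i' hi' hlt => (h3 i' hi' hlt).trans_le h1⟩, h1⟩
  · intro γ hγ
    obtain ⟨i₁, h1, h2, h3⟩ := hmin γ hγ
    have hsub : ({c | c < δ ∧ ∃ i, e δ i = c ∧ ∀ i' < i, e δ i' < δ → e δ i' < c} ∩ Iio γ : Set L)
        ⊆ e δ '' (Iio i₁) := by
      rintro c ⟨⟨hc, i, hi, hrec⟩, hcγ⟩
      refine ⟨i, ?_, hi⟩
      rcases lt_trichotomy i i₁ with h4 | h4 | h4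
      · exact h4
      · exfalso
        subst h4
        rw [hi] at h1
        exact absurd hcγ (not_lt.2 h1)
      · exfalso
        exact absurd ((hrec i₁ h4 h2).trans hcγ) (not_lt.2 h1)
    exact ((mk_le_mk_of_subset hsub).trans mk_image_le).trans_lt (h.small i₁)

/-- Lemma W. PROOF. Choose `Cs x` by `exists_cs`; for `l < x` let `stp x l` be the least element `c`
of `Cs x` with `l ≤ c`; `stp x l = x` for `x ≤ l`. Let `γ` have a ladder `σ`. Induction on `δ > γ`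
(`WellFoundedLT.induction`): `#(Cs δ ∩ Iio γ) < #K`, so there is `j : K` with `c < σ j` for all
`c ∈ Cs δ ∩ Iio γ` (choose for every such `c` an index with `c < σ (idx c)`; the indices are bounded by
`exists_sup_set`/`h.reg`; `σ` is increasing). Put `η₀ = σ j < γ`. Let `c₀` be the least element of
`Cs δ` with `γ ≤ c₀`. For `η₀ < l < γ`: `stp δ l = c₀` (elements of `Cs δ` that are `≥ l` are not
`< γ`). If `c₀ = γ` take `n = 1`, `η = η₀`. Otherwise `γ < c₀ < δ`, the induction hypothesis gives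
`n`, `η`; take `n + 1` and `max η₀ η` (`Function.iterate_succ_apply`). -/
theorem exists_walk (h : RegK K) (hL : RegK L) (hKL : #L = succ #K) :
    ∃ stp : L → L → L, ∀ γ, (∃ σ : K → L, Lad σ γ) → ∀ δ, γ < δ → ∃ n, Reach stp n δ γ := by
  classical
  choose Cs hCs1 hCs2 hCs3 using exists_cs h hL hKL
  have hst : ∀ x l : L, ∃ c, l < x → (c ∈ Cs x ∧ l ≤ c ∧ ∀ d ∈ Cs x, l ≤ d → c ≤ d) := by
    intro x l
    by_cases hl : l < x
    · have hne : ({c : L | c ∈ Cs x ∧ l ≤ c} : Set L).Nonempty := hCs2 x l hl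
      obtain ⟨c, hc, hm⟩ := wellFounded_lt.has_min _ hne
      exact ⟨c, fun _ => ⟨hc.1, hc.2, fun d hd hld => not_lt.1 (hm d ⟨hd, hld⟩)⟩⟩
    · exact ⟨x, fun h' => absurd h' hl⟩
  choose stp hstp using hst
  refine ⟨stp, ?_⟩
  rintro γ ⟨σ, hσ1, hσ2, hσ3⟩ δ
  induction δ using WellFoundedLT.induction with
  | _ δ ih =>
    intro hγδ
    have hsm := hCs3 δ γ hγδ
    choose idx hidx using fun c : (Cs δ ∩ Iio γ : Set L) => hσ3 c.1 c.2.2
    obtain ⟨j, hj⟩ := exists_sup h hsm idx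
    have hjc : ∀ c ∈ Cs δ, c < γ → c < σ j := fun c hc hcγ =>
      (hidx ⟨c, hc, hcγ⟩).trans (hσ1 _ _ (hj ⟨c, hc, hcγ⟩))
    obtain ⟨hc1, hc2, hc3⟩ := hstp δ γ hγδ
    have hkey : ∀ l, σ j < l → l < γ → stp δ l = stp δ γ := by
      intro l hl1 hl2
      obtain ⟨hd1, hd2, hd3⟩ := hstp δ l (hl2.trans hγδ)
      refine le_antisymm (hd3 _ hc1 (hl2.le.trans hc2)) (hc3 _ hd1 ?_)
      by_contra hcon
      rw [not_le] at hcon
      exact lt_irrefl _ ((hjc _ hd1 hcon).trans (hl1.trans_le hd2))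
    rcases hc2.eq_or_lt with heq | hlt
    · refine ⟨1, σ j, hσ2 j, fun l hl1 hl2 => ?_⟩
      rw [Function.iterate_one]
      show stp δ l = γ
      rw [hkey l hl1 hl2]
      exact heq.symm
    · obtain ⟨n, η, hη, hn⟩ := ih (stp δ γ) (hCs1 δ _ hc1) hlt
      refine ⟨n + 1, max (σ j) η, max_lt (hσ2 j) hη, fun l hl1 hl2 => ?_⟩
      rw [Function.iterate_succ_apply]
      show (fun x => stp x l)^[n] (stp δ l) = γ
      rw [hkey l ((le_max_left _ _).trans_lt hl1) hl2]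
      exact hn l ((le_max_right _ _).trans_lt hl1) hl2

end Pool.Agent.LibGPR
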