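import Pool.Agent.LibGPR.OrthW
import Pool.Agent.LibGPR.DensW
import Pool.Agent.LibGPR.Guess
import Pool.Agent.LibGPR.CodG
import Pool.Agent.LibGPR.Walk
import Pool.Agent.LibGPR.SplitL
import Pool.Agent.LibGPR.LemN
import Pool.Agent.LibGPR.CodW
import Pool.Agent.LibGPR.Count
import Pool.Agent.LibGPR.ScaleR
import Pool.Agent.LibGP76.RCase
import Pool.Agent.LibGP76.Dich

/-! [GPR E1] Assembly. -/

set_option autoImplicit false

namespace Pool.Agent.LibGPR

open Cardinal Set Order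
open Pool.Agent.LibGP76

universe u

variable {K L : Type u} [LinearOrder K] [LinearOrder L] [WellFoundedLT K] [WellFoundedLT L]

theorem n_case_idx (h : RegK K) (hL : RegK L) (hKL : #K < #L) (p : Ultrafilter K)
    (hp : ∀ X ∈ p, Ub X) (b : K → K) (hb : ∀ b' : K → K, {x | fl b x ∈ Cl b'} ∈ p)
    {g : L → K → K} (hg : Sc g) (hu : Pos g univ) (J : Type u) (C : J → Set K)
    (hC : ∀ j, Ub (C j)) (hCC : ∀ i j, i ≠ j → ¬ Ub (C i ∩ C j)) : GoodIdx p J := by
  classical
  rcases lt_or_ge (succ #K) #L with hlt | hge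
  · obtain ⟨e, he⟩ := club_guess h hL hlt
    obtain ⟨c, hc⟩ := cod_guess h e he
    refine ⟨fun j B => ClsW b g univ e c (C j) B, fun j B hB => hB.1, ?_, ?_⟩
    · intro i j hij B B' hB hB'
      exact orth_w1 b g univ e c (C i) (C j) (hCC i j hij) B B' hB hB'
    · intro X hX j
      exact dens_w h p hp b hb hg hu univ e c (C j) (hc (C j) (hC j)) X hX
  · have hKL' : #L = succ #K := le_antisymm hge (succ_le_of_lt hKL)
    obtain ⟨e, he⟩ := exists_enum h hL hKL'
    obtain ⟨stp, hstp⟩ := exists_walk h hL hKL'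
    haveI := nonempty_of_regK h
    obtain ⟨col, hcol⟩ := split_cof h hL hKL K hKL.le
    obtain ⟨dk, hdk⟩ := split_cof h hL hKL (ULift.{u} ℕ) (by
      have : #(ULift.{u} ℕ) = ℵ₀ := by simp
      rw [this]
      exact hL.unc.le)
    let D : ℕ → Set L := fun k => {x : L | dk x = ⟨k⟩ ∧ ∃ σ : K → L, Lad σ x}
    have hD : ∀ k, Stat (D k) := fun k => hdk ⟨k⟩
    have hDd : ∀ k k', k ≠ k' → Disjoint (D k) (D k') := by
      intro k k' hkk
      rw [Set.disjoint_left]
      rintro x ⟨hx, _⟩ ⟨hx', _⟩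
      exact hkk (by have := hx.symm.trans hx'; simpa using this)
    choose N hN using fun (k : ℕ) (j : J) =>
      lemN h hL hKL stp hstp col hcol (D k) (hD k) (fun δ hδ => hδ.2) (C j) (hC j)
    obtain ⟨n, f, hf, hn⟩ := count_pieces J N
    refine ⟨fun j B => ClsW b g (D (f j).1) e
      (fun δ l => col ((fun x => stp x l)^[n (f j).1] δ)) (C (f j).2) B,
      fun j B hB => hB.1, ?_, ?_⟩
    · intro i j hij B B' hB hB'
      by_cases hk : (f i).1 = (f j).1
      · have hne : (f i).2 ≠ (f j).2 := fun h2 => hij (hf (Prod.ext hk h2))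
        simp only [hk] at hB
        exact orth_w1 b g _ e _ _ _ (hCC _ _ hne) B B' hB hB'
      · exact orth_w2 b g _ _ (hDd _ _ hk) e e _ _ _ _ B B' hB hB'
    · intro X hX j
      refine dens_w h p hp b hb hg hu _ e _ _ ?_ X hX
      refine cod_walk stp col _ (fun δ hδ => hδ.2) _ _ ?_ e he
      rw [← hn j]
      exact hN _ _

theorem good_idx (h : RegK K) (p : Ultrafilter K) (hp : ∀ X ∈ p, Ub X) (J : Type u)
    (C : J → Set K) (hC : ∀ j, Ub (C j)) (hCC : ∀ i j, i ≠ j → ¬ Ub (C i ∩ C j)) :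
    GoodIdx p J := by
  obtain ⟨L, _, _, g, hg, hu, hL, hKL⟩ := exists_scale_reg h
  rcases dichotomy h p hp with ⟨b, hb⟩ | ⟨s, hs1, hs2⟩
  · exact n_case_idx h hL hKL p hp b hb hg hu J C hC hCC
  · obtain ⟨col, hcol⟩ := col_stat h
    obtain ⟨Cls, h1, h2, h3⟩ := r_case h p hp s hs1 hs2 hg hu col hcol
    exact ⟨fun j B => Cls (C j) B, fun j B => h1 _ _, fun i j hij B B' hB hB' =>
      h2 _ _ (hCC i j hij) B B' hB hB', fun X hX j => h3 X hX _ (hC j)⟩

end Pool.Agent.LibGPR
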