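import Pool.Agent.LibGP76.PosG

/-!
Coding by escape levels: definitions.

`K` stands for a regular uncountable cardinal, `L` for the length of a scale `g : L → K → K`.
-/

set_option autoImplicit false

namespace Pool.Agent.LibGPR

open Cardinal Set
open Pool.Agent.LibGP76

universe u

variable {K L : Type u} [LinearOrder K] [LinearOrder L]

/-- `e` is a strictly increasing cofinal sequence of type `K` below `δ`. -/
def Lad (e : K → L) (δ : L) : Prop :=
  (∀ i j, i < j → e i < e j) ∧ (∀ i, e i < δ) ∧ ∀ ν < δ, ∃ i, ν < e i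

/-- `l` is the escape level of `y` with respect to `δ` and the enumeration `e δ`: with
`z = fl (g δ) y`, it is the least of the levels `e δ i` (`i < z`) with `y < g (e δ i) z`. -/
def Esc [WellFoundedLT K] (g : L → K → K) (e : L → K → L) (δ : L) (y : K) (l : L) : Prop :=
  (∃ i < fl (g δ) y, e δ i = l ∧ y < g l (fl (g δ) y)) ∧
    ∀ i < fl (g δ) y, y < g (e δ i) (fl (g δ) y) → l ≤ e δ i

/-- The coding condition for the set `C`: for every `s` with `s β > β` there is a level `δ ∈ D` of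
cofinality `K` such that for cofinally many `β < δ` the least level `l` of the range of `e δ` with
`l ≥ s β` has a colour `c δ l` in `C`, as large as we wish. -/
def Cod (D : Set L) (e : L → K → L) (c : L → L → K) (C : Set K) : Prop :=
  ∀ s : L → L, (∀ β, β < s β) → ∃ δ ∈ D, (∃ σ : K → L, Lad σ δ) ∧
    ∀ β₀ < δ, ∀ a₀ : K, ∃ (β : L) (i : K), β₀ ≤ β ∧ β < δ ∧ s β ≤ e δ i ∧ e δ i < δ ∧
      (∀ i', s β ≤ e δ i' → e δ i ≤ e δ i') ∧ c δ (e δ i) ∈ C ∧ a₀ < c δ (e δ i)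

/-- The classes. -/
def ClsW [WellFoundedLT K] (b : K → K) (g : L → K → K) (D : Set L) (e : L → K → L)
    (c : L → L → K) (C B : Set K) : Prop :=
  Ub B ∧ ∃ δ ∈ D,
    (∃ η, ∀ x ∈ B, η < x → fl b x ∉ Cl (g δ)) ∧
    (∀ β < δ, ∃ η, ∀ x ∈ B, η < x → fl b x ∈ Cl (g β)) ∧
    (∃ η, ∀ x ∈ B, η < x → ∃ l, Esc g e δ (fl b x) l ∧ c δ l ∈ C) ∧
    (∀ ζ, ∃ η, ∀ x ∈ B, η < x → ∃ l, Esc g e δ (fl b x) l ∧ ζ < c δ l)

/-- Classes indexed by a type `J`. -/
def GoodIdx (p : Ultrafilter K) (J : Type u) : Prop :=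
  ∃ Cls : J → Set K → Prop,
    (∀ j B, Cls j B → Ub B) ∧
    (∀ i j, i ≠ j → ∀ B B', Cls i B → Cls j B' → ¬ Ub (B ∩ B')) ∧
    ∀ X ∈ p, ∀ j, ∃ B, B ⊆ X ∧ Cls j B

/-- `γ` is reached from `δ` in `n` steps of the walk `x ↦ stp x l`, for all `l` in an interval
`(η, γ)`. -/
def Reach (stp : L → L → L) (n : ℕ) (δ γ : L) : Prop :=
  ∃ η < γ, ∀ l, η < l → l < γ → (fun x => stp x l)^[n] δ = γ

end Pool.Agent.LibGPR
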