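import Pool.Agent.LibGPR.Asm
import Pool.Agent.LibGP76.WM
import Pool.Agent.LibGP.Top

/-! [GPR E2] From index classes to disjoint open sets. -/

set_option autoImplicit false

namespace Pool.Agent.LibGPR

open Cardinal Set Order Topology
open Pool.Agent.LibGP76

universe u

/-- From classes of sets on `K` to disjoint open sets in the space of uniform ultrafilters. -/
theorem open_of_goodIdx {A K : Type u} [LinearOrder K] (h : RegK K) (e : A ≃ K)
    (p : LibGP.UPt A) {F : Type u} (hp : GoodIdx (p.1.map e) (F × Bool)) :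
    ∃ 𝒪 : Set (Set (LibGP.UPt A)), #𝒪 = #F ∧ 𝒪.PairwiseDisjoint id ∧
      (∀ O ∈ 𝒪, IsOpen O ∧ p ∈ frontier O) := by
  classical
  have hAK : #A = #K := Cardinal.mk_congr e
  have hA : ℵ₀ ≤ #A := hAK ▸ h.unc.le
  obtain ⟨Cls, h1, h2, h3⟩ := hp
  have hpre : ∀ B : Set K, #(e ⁻¹' B : Set A) = #B := by
    intro B
    have := mk_image_eq (s := e ⁻¹' B) e.injective
    rw [Set.image_preimage_eq _ e.surjective] at this
    exact this.symm
  refine LibGP.open_of_family hA p (F := F) (K := Set K)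
    (fun B x => if Cls x B then e ⁻¹' B else ∅) ?_ ?_
  · intro B B' x x' hne
    by_cases hB : Cls x B
    · by_cases hB' : Cls x' B'
      · rw [if_pos hB, if_pos hB', ← preimage_inter, hpre, hAK, ← not_ub_iff h]
        exact h2 _ _ hne B B' hB hB'
      · rw [if_neg hB', inter_empty, mk_eq_zero]
        exact aleph0_pos.trans_le hA
    · rw [if_neg hB, empty_inter, mk_eq_zero]
      exact aleph0_pos.trans_le hA
  · intro s hs x
    have hs' : e '' s ∈ p.1.map e := by
      rw [Ultrafilter.mem_map, preimage_image_eq _ e.injective]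
      exact hs
    obtain ⟨B, hB1, hB2⟩ := h3 _ hs' x
    refine ⟨B, ?_⟩
    rw [if_pos hB2, inter_eq_left.2, hpre, hAK]
    · exact (ub_iff h B).1 (h1 _ _ hB2)
    · intro y hy
      obtain ⟨z, hz, hzy⟩ := hB1 hy
      rwa [← e.injective hzy]

theorem ub_of_map {A K : Type u} [LinearOrder K] (h : RegK K) (e : A ≃ K)
    (p : LibGP.UPt A) : ∀ X ∈ p.1.map e, Ub X := by
  intro X hX
  rw [ub_iff h]
  have h1 := p.2 _ (Ultrafilter.mem_map.1 hX)
  have := mk_image_eq (s := e ⁻¹' X) e.injective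
  rw [Set.image_preimage_eq _ e.surjective] at this
  rw [this, h1, Cardinal.mk_congr e]

theorem main_regular {A : Type u} (hA : ℵ₀ < #A) (hr : (#A).IsRegular)
    (p : LibGP.UPt A) (F : Set (Set A)) (hF : ∀ s ∈ F, #s = #A)
    (hFF : F.Pairwise fun s t => #(s ∩ t : Set A) < #A) :
    ∃ 𝒪 : Set (Set (LibGP.UPt A)), #𝒪 = #F ∧ 𝒪.PairwiseDisjoint id ∧
      (∀ O ∈ 𝒪, IsOpen O ∧ p ∈ frontier O) := by
  classical
  have h := regK_ord hr hA
  obtain ⟨e⟩ : Nonempty (A ≃ (#A).ord.ToType) := Cardinal.eq.1 (mk_ord_toType #A).symm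
  have hAK : #A = #((#A).ord.ToType) := Cardinal.mk_congr e
  choose t ht1 ht2 ht3 using fun s : F => LibGP.exists_halves hA.le s.1 (hF s.1 s.2)
  have himg : ∀ S : Set A, Ub (e '' S) ↔ #S = #A := by
    intro S
    rw [ub_iff h, mk_image_eq e.injective, ← hAK]
  refine open_of_goodIdx h e p (F := F) (good_idx h _ (ub_of_map h e p) (F × Bool)
    (fun x => e '' (t x.1 x.2)) (fun x => (himg _).2 (ht2 _ _)) ?_)
  intro x x' hne
  rw [← image_inter e.injective, himg]
  refine ne_of_lt ?_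
  by_cases hx : x.1 = x'.1
  · have hb : x.2 ≠ x'.2 := fun hb => hne (Prod.ext hx hb)
    have hd : (t x.1 x.2 ∩ t x'.1 x'.2 : Set A) = ∅ := by
      rw [← hx, ← disjoint_iff_inter_eq_empty]
      rcases x.2.eq_false_or_eq_true with k1 | k1 <;>
        rcases x'.2.eq_false_or_eq_true with k2 | k2
      · exact absurd (k1.trans k2.symm) hb
      · rw [k1, k2]; exact (ht3 _).symm
      · rw [k1, k2]; exact ht3 _
      · exact absurd (k1.trans k2.symm) hb
    rw [hd, mk_eq_zero]
    exact aleph0_pos.trans hA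
  · refine (mk_le_mk_of_subset (inter_subset_inter (ht1 _ _) (ht1 _ _))).trans_lt ?_
    exact hFF x.1.2 x'.1.2 (fun h' => hx (Subtype.ext h'))

end Pool.Agent.LibGPR
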