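import Pool.Agent.LibGPR.Defs

/-! [GPR A1] Orthogonality of the classes. (40 lines; the model is `orth_n` in `LibGP76/NCase.lean`,
which can be copied almost word for word.) -/

set_option autoImplicit false

namespace Pool.Agent.LibGPR

open Cardinal Set
open Pool.Agent.LibGP76

universe u

variable {K L : Type u} [LinearOrder K] [LinearOrder L] [WellFoundedLT K]

theorem Esc.unique {g : L → K → K} {e : L → K → L} {δ : L} {y : K} {l l' : L}
    (h : Esc g e δ y l) (h' : Esc g e δ y l') : l = l' := by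
  obtain ⟨⟨i, hi, hil, hy⟩, hmin⟩ := h
  obtain ⟨⟨i', hi', hil', hy'⟩, hmin'⟩ := h'
  subst hil
  subst hil'
  exact le_antisymm (hmin i' hi' hy') (hmin' i hi hy)

/-- The level is determined. As in `orth_n`: if `δ < δ'` then for large `x ∈ B ∩ B'` we have
`fl b x ∉ Cl (g δ)` and `fl b x ∈ Cl (g δ)`. -/
theorem level_eq {b : K → K} {g : L → K → K} {B B' : Set K} (hBB : Ub (B ∩ B')) {δ δ' : L}
    (h1 : ∃ η, ∀ x ∈ B, η < x → fl b x ∉ Cl (g δ))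
    (h2 : ∀ β < δ, ∃ η, ∀ x ∈ B, η < x → fl b x ∈ Cl (g β))
    (h1' : ∃ η, ∀ x ∈ B', η < x → fl b x ∉ Cl (g δ'))
    (h2' : ∀ β < δ', ∃ η, ∀ x ∈ B', η < x → fl b x ∈ Cl (g β)) : δ = δ' := by
  obtain ⟨a1, h1⟩ := h1
  obtain ⟨a1', h1'⟩ := h1'
  rcases lt_trichotomy δ δ' with hd | hd | hd
  · obtain ⟨a2, h2⟩ := h2' δ hd
    obtain ⟨x, hx, hxl⟩ := hBB (max a1 a2)
    exact absurd (h2 x hx.2 (lt_of_le_of_lt (le_max_right _ _) hxl))
      (h1 x hx.1 (lt_of_le_of_lt (le_max_left _ _) hxl))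
  · exact hd
  · obtain ⟨a2, h2⟩ := h2 δ' hd
    obtain ⟨x, hx, hxl⟩ := hBB (max a1' a2)
    exact absurd (h2 x hx.1 (lt_of_le_of_lt (le_max_right _ _) hxl))
      (h1' x hx.2 (lt_of_le_of_lt (le_max_left _ _) hxl))

/-- Same colouring, almost disjoint sets. -/
theorem orth_w1 (b : K → K) (g : L → K → K) (D : Set L) (e : L → K → L) (c : L → L → K)
    (C C' : Set K) (hC : ¬ Ub (C ∩ C')) (B B' : Set K) (hB : ClsW b g D e c C B)
    (hB' : ClsW b g D e c C' B') : ¬ Ub (B ∩ B') := by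
  intro hBB
  obtain ⟨hu, δ, hδ, h1, h2, ⟨a3, h3⟩, h4⟩ := hB
  obtain ⟨hu', δ', hδ', h1', h2', ⟨a3', h3'⟩, h4'⟩ := hB'
  have hd : δ = δ' := level_eq hBB h1 h2 h1' h2'
  subst hd
  unfold Ub at hC
  push Not at hC
  obtain ⟨ζ, hζ⟩ := hC
  obtain ⟨a4, h4⟩ := h4 ζ
  obtain ⟨x, hx, hxl⟩ := hBB (max (max a3 a3') a4)
  obtain ⟨l, hl, hlC⟩ := h3 x hx.1 (lt_of_le_of_lt ((le_max_left _ _).trans (le_max_left _ _)) hxl)
  obtain ⟨l', hl', hlC'⟩ :=
    h3' x hx.2 (lt_of_le_of_lt ((le_max_right _ _).trans (le_max_left _ _)) hxl)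
  obtain ⟨l'', hl'', hlζ⟩ := h4 x hx.1 (lt_of_le_of_lt (le_max_right _ _) hxl)
  have e1 := hl.unique hl'
  have e2 := hl.unique hl''
  subst e1
  subst e2
  exact absurd hlζ (not_lt.2 (hζ _ ⟨hlC, hlC'⟩))

/-- Disjoint sets of levels. -/
theorem orth_w2 (b : K → K) (g : L → K → K) (D D' : Set L) (hD : Disjoint D D') (e e' : L → K → L)
    (c c' : L → L → K) (C C' : Set K) (B B' : Set K) (hB : ClsW b g D e c C B)
    (hB' : ClsW b g D' e' c' C' B') : ¬ Ub (B ∩ B') := by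
  intro hBB
  obtain ⟨hu, δ, hδ, h1, h2, -, -⟩ := hB
  obtain ⟨hu', δ', hδ', h1', h2', -, -⟩ := hB'
  have hd : δ = δ' := level_eq hBB h1 h2 h1' h2'
  subst hd
  exact Set.disjoint_left.1 hD hδ hδ'

end Pool.Agent.LibGPR
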