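import Pool.Agent.LibGPR.Defs

/-! [GPR B1] Ladders. -/

set_option autoImplicit false

namespace Pool.Agent.LibGPR

open Cardinal Set
open Pool.Agent.LibGP76

universe u

variable {K L : Type u} [LinearOrder K] [LinearOrder L] [WellFoundedLT K]

/-- Thinning out. Proof: choose `nx : K → K` with `f x < f (nx x)` (apply the last hypothesis to
`ν = f x`); apply `exists_seq h (T := K) (fun _ _ => True) id (fun _ t => nx t)`: this gives
`t : K → K` with `j < t j` and `nx (t i) < t j` for `i < j`. Put `e j = f (t j)`. -/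
theorem thin (h : RegK K) (f : K → L) (δ : L) (hf1 : ∀ i j, i ≤ j → f i ≤ f j)
    (hf2 : ∀ i, f i < δ) (hf3 : ∀ ν < δ, ∃ i, ν < f i) :
    ∃ e : K → L, Lad e δ ∧ ∀ j, ∃ i, e j = f i := by
  choose nx hnx using fun x : K => hf3 (f x) (hf2 x)
  obtain ⟨t, -, ht1, ht2⟩ := exists_seq h (T := K) (fun _ _ => True) id (fun _ t => nx t) (by
    intro j z
    obtain ⟨w, hw⟩ := exists_gt' h z
    exact ⟨w, hw, trivial⟩)
  simp only [id] at ht1 ht2
  refine ⟨fun j => f (t j), ⟨?_, fun i => hf2 _, ?_⟩, fun j => ⟨t j, rfl⟩⟩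
  · intro i j hij
    exact (hnx (t i)).trans_le (hf1 _ _ (ht2 i j hij).le)
  · intro ν hν
    obtain ⟨i, hi⟩ := hf3 ν hν
    exact ⟨i, hi.trans_le (hf1 _ _ (ht1 i).le)⟩

variable [WellFoundedLT L]

/-- Closed unbounded sets of `L` contain ladders of length `K`. Proof: `levels`-like recursion: with
`exists_cl hL E` choose `nx : L → L`, `ξ < nx ξ ∈ Cl E`; by `wellFounded_lt.fix` on `K` (sets of
fewer than `#K` points of `L` are bounded, `exists_sup hL` with `h.small j`, `#K < #L`) build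
`σ : K → L` strictly increasing with values in `Cl E` and above `η`; `δ` is the least strict upper
bound of the range of `σ` (`exists_sup hL hKL`, `wellFounded_lt.has_min`). Then `δ ∈ Cl E`. -/
theorem exists_lad (h : RegK K) (hL : RegK L) (hKL : #K < #L) (E : L → L) (η : L) :
    ∃ (σ : K → L) (δ : L), Lad σ δ ∧ (∀ j, σ j ∈ Cl E) ∧ (∀ j, η < σ j) ∧ δ ∈ Cl E := by
  classical
  have hb : ∀ (j : K) (f : (i : K) → i < j → L), ∃ z, (∀ i (hi : i < j), f i hi < z) ∧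
      η < z ∧ z ∈ Cl E := by
    intro j f
    obtain ⟨z, hz⟩ := exists_sup hL ((h.small j).trans hKL) (fun i : Set.Iio j => f i.1 i.2)
    obtain ⟨w, hw1, hw2⟩ := exists_cl hL E (max z η)
    exact ⟨w, fun i hi => (hz ⟨i, hi⟩).trans (lt_of_le_of_lt (le_max_left _ _) hw1),
      lt_of_le_of_lt (le_max_right _ _) hw1, hw2⟩
  choose sp hsp1 hsp2 hsp3 using hb
  let σ : K → L := wellFounded_lt.fix (fun j rec => sp j rec)
  have hσ : ∀ j, σ j = sp j (fun i _ => σ i) := fun j => wellFounded_lt.fix_eq _ j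
  have h1 : ∀ i j, i < j → σ i < σ j := by
    intro i j hij
    rw [hσ j]
    exact hsp1 j (fun i _ => σ i) i hij
  have h2 : ∀ j, η < σ j := fun j => by
    rw [hσ j]
    exact hsp2 _ _
  have h3 : ∀ j, σ j ∈ Cl E := fun j => by
    rw [hσ j]
    exact hsp3 _ _
  obtain ⟨δ₀, hδ₀⟩ := exists_sup hL hKL σ
  obtain ⟨δ, hδ, hmin⟩ := wellFounded_lt.has_min {ν : L | ∀ j, σ j < ν} ⟨δ₀, hδ₀⟩
  have hcof : ∀ ν < δ, ∃ j, ν < σ j := by
    intro ν hν
    have h4 : ¬ (ν ∈ {ν : L | ∀ j, σ j < ν}) := fun h' => hmin ν h' hν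
    simp only [mem_setOf_eq, not_forall, not_lt] at h4
    obtain ⟨j, hj⟩ := h4
    obtain ⟨k, hk⟩ := exists_gt' h j
    exact ⟨k, hj.trans_lt (h1 j k hk)⟩
  refine ⟨σ, δ, ⟨h1, hδ, hcof⟩, h3, h2, ?_⟩
  intro y hy
  obtain ⟨j, hj⟩ := hcof y hy
  exact (h3 j y hj).trans (hδ j)

/-- The levels of cofinality `K` are stationary in `L`. From `exists_lad`. -/
theorem stat_cof (h : RegK K) (hL : RegK L) (hKL : #K < #L) :
    Stat {δ : L | ∃ σ : K → L, Lad σ δ} := by
  intro b η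
  obtain ⟨σ, δ, hσ, -, hη, hcl⟩ := exists_lad h hL hKL b η
  obtain ⟨j⟩ := nonempty_of_regK h
  exact ⟨δ, ⟨σ, hσ⟩, (hη j).trans (hσ.2.1 j), hcl⟩

end Pool.Agent.LibGPR
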